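import Mathlib

namespace Pool.Agent.Results.MP_b7336c_co.Power
open Matrix

/-- the binary word of `j`, most significant digit first -/
def bin (j : ℕ) : List ℕ := (Nat.digits 2 j).reverse

/-- number of (overlapping) occurrences of `w` as a block of the word `x` -/
def occ (w x : List ℕ) : ℕ := x.tails.countP fun t => w <+: t

/-- rows and columns are indexed by `i + 1`, `i < N` -/
def M (N : ℕ) : Matrix (Fin N) (Fin N) ℤ := Matrix.of fun i j => occ (bin (j + 1)) (bin (i + 1))

def E (N : ℕ) : Matrix (Fin N) (Fin N) ℤ := Matrix.of fun i j => if i + 1 = N ∧ j.val = 0 then 1 else 0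

lemma occ_cons (w : List ℕ) (a : ℕ) (x : List ℕ) :
    occ w (a :: x) = occ w x + if w <+: a :: x then 1 else 0 := by
  simp [occ, List.countP_cons]

lemma occ_snoc (w : List ℕ) (a : ℕ) (x : List ℕ) :
    occ w (x ++ [a]) = occ w x + if w <:+ x ++ [a] then 1 else 0 := by
  induction x with
  | nil => simp [occ, List.countP_cons, List.prefix_cons_iff, List.suffix_cons_iff, or_comm]
  | cons b x ih =>
    rw [List.cons_append, occ_cons, occ_cons, ih]
    simp only [List.suffix_cons_iff (l₂ := x ++ [a])]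
    simp only [← List.cons_append, List.prefix_concat_iff]
    have h1 : w = b :: x ++ [a] → ¬ w <+: b :: x ∧ ¬ w <:+ x ++ [a] := by
      rintro rfl
      exact ⟨fun h => by simpa using h.length_le, fun h => by simpa using h.length_le⟩
    by_cases e : w = b :: x ++ [a]
    · simp only [if_neg (h1 e).1, if_neg (h1 e).2, if_pos (Or.inl e)]
    · simp only [e, false_or]; omega

def U (i : ℕ) : ℕ := if i < 2 then 0 else 2 * U (i / 2) + i % 2

lemma U_lt (i : ℕ) (h : 0 < i) : U i < i := by
  induction i using Nat.strong_induction_on with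
  | _ i ih => rw [U]; split_ifs; omega; have := ih (i / 2) (by omega) (by omega); omega

lemma U0 : U 0 = 0 := by rw [U]; rfl
lemma U_le (i : ℕ) : U i ≤ i := by
  rcases i.eq_zero_or_pos with rfl | h
  exacts [U0.le, (U_lt i h).le]

lemma UD (i : ℕ) : U i / 2 = U (i / 2) := by
  rw [U]; split_ifs with h
  · rw [show i / 2 = 0 by omega, U0]
  · omega

def P (i j : ℕ) : Prop := Nat.digits 2 j <+: Nat.digits 2 i

lemma P_iff (i j : ℕ) (hj : 0 < j) : P i j ↔ 0 < i ∧ j % 2 = i % 2 ∧ P (i / 2) (j / 2) := by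
  rcases i.eq_zero_or_pos with rfl | h
  · simp [P, Nat.digits_eq_nil_iff_eq_zero, hj.ne']
  · rw [P, Nat.digits_def' one_lt_two hj, Nat.digits_def' one_lt_two h]; simp [P, h]

lemma P0 (i : ℕ) : P i 0 := by simp [P]

lemma P_rec (j : ℕ) : ∀ i, 0 < j → (P i j ↔ i = j ∨ P (U i) j) ∧ (P i j → j ≤ i) := by
  induction j using Nat.strong_induction_on with
  | _ j ih =>
    intro i hj
    rw [P_iff i j hj, P_iff _ j hj, UD]
    by_cases h1 : j = 1
    · subst h1; rw [U]; simp only [P0, show 1 / 2 = 0 from rfl, and_true]; split_ifs <;> omega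
    obtain ⟨a, b⟩ := ih (j / 2) (by omega) (i / 2) (by omega)
    have c := (ih (j / 2) (by omega) (U (i / 2)) (by omega)).2
    have d := U_le (i / 2)
    refine ⟨?_, fun h => by have := b h.2.2; omega⟩
    rw [a, U.eq_1 i]
    by_cases hp : P (U (i / 2)) (j / 2)
    · have := c hp
      simp only [hp, or_true, and_true]; split_ifs <;> omega
    · simp only [hp, or_false, and_false]; omega

def mat (N : ℕ) (f : ℕ → ℕ) : Matrix (Fin N) (Fin N) (ZMod 2) :=
  Matrix.of fun i k => if f (i + 1) = k + 1 then 1 else 0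

lemma mat_mul {N : ℕ} (f : ℕ → ℕ) (hf : ∀ i, f i ≤ i) (g : ℕ → Fin N → ZMod 2) (h0 : g 0 = 0) :
    mat N f * (Matrix.of fun i j : Fin N => g (i + 1) j) =
      Matrix.of fun i j : Fin N => g (f (i + 1)) j := by
  ext i j
  simp only [mul_apply, mat, of_apply, ite_mul, one_mul, zero_mul]
  rcases e : f (i + 1) with _ | k
  · simp [h0]
  · have := hf (i + 1)
    rw [Finset.sum_eq_single ⟨k, by omega⟩ (fun b _ hb => if_neg fun h => hb (Fin.ext (by
      simp; omega))) (by simp), if_pos rfl]

lemma mat_pow {N : ℕ} (f : ℕ → ℕ) (hf : ∀ i, f i ≤ i) (k : ℕ) : mat N f ^ k = mat N f^[k] := by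
  have h0 : ∀ k, f^[k] 0 = 0 := fun k => Function.iterate_fixed (Nat.le_zero.1 (hf 0)) k
  induction k with
  | zero => ext i j; simp [mat, one_apply, Fin.ext_iff]
  | succ k ih =>
    rw [pow_succ', ih]
    exact mat_mul f hf (fun a j => if f^[k] a = j + 1 then 1 else 0) (by ext; simp [h0])

lemma U_it (k : ℕ) : ∀ i < 2 ^ k, U^[k] i = 0 := by
  have : ∀ k, ∀ i < 2 ^ (k + 1), U i < 2 ^ k := fun k => by
    induction k with
    | zero => intro i hi; rw [U, if_pos (by simpa using hi)]; simp
    | succ k ih =>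
      intro i hi; rw [U]; split_ifs; positivity
      have := ih (i / 2) (by omega); omega
  induction k with
  | zero => intro i hi; simpa using hi
  | succ k ih => intro i hi; exact ih _ (this k i hi)

lemma U_pow (k : ℕ) : U (2 ^ k) = 0 := by
  induction k with
  | zero => rw [U]; rfl
  | succ k ih =>
    rw [U, if_neg (by have := Nat.one_le_two_pow (n := k); omega),
      show 2 ^ (k + 1) / 2 = 2 ^ k by omega, ih]; omega

theorem result (n : ℕ) (i j : Fin (2 ^ 2 ^ n)) :
    (M (2 ^ 2 ^ n) ^ 2 ^ n) i j ≡ (1 + E (2 ^ 2 ^ n)) i j [ZMOD 2] := by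
  classical
  refine (ZMod.intCast_eq_intCast_iff _ _ 2).1 ?_
  revert i j
  obtain ⟨k, hk⟩ : ∃ k, 2 ^ n = k + 1 := ⟨2 ^ n - 1, by have := Nat.one_le_two_pow (n := n); omega⟩
  generalize hN : 2 ^ 2 ^ n = N
  let φ := (Int.castRingHom (ZMod 2)).mapMatrix (m := Fin N)
  suffices h : φ (M N) ^ 2 ^ n = 1 + φ (E N) by
    intro i j
    rw [← map_pow, ← map_one φ, ← map_add] at h
    exact congrFun (congrFun h i) j
  have hD : ∀ i : ℕ, i / 2 ≤ i := fun i => by omega
  have h1 : (1 - mat N (· / 2)) * φ (M N) =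
      Matrix.of fun i j : Fin N => if P (i + 1) (j + 1) then 1 else 0 := by
    have := mat_mul (N := N) _ hD (fun a j => (occ (bin (j + 1)) (bin a) : ZMod 2))
      (by ext j; simp [occ, bin, Nat.digits_eq_nil_iff_eq_zero])
    rw [sub_mul, one_mul, show φ (M N) = Matrix.of fun i j : Fin N =>
      (occ (bin (j + 1)) (bin (i + 1)) : ZMod 2) from by ext; simp [φ, M], this]
    ext i j
    simp only [Matrix.sub_apply, of_apply]
    conv_lhs => rw [bin, bin, Nat.digits_def' one_lt_two (Nat.succ_pos i), List.reverse_cons, occ_snoc,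
      ← List.reverse_cons, ← Nat.digits_def' one_lt_two (Nat.succ_pos i)]
    simp only [List.reverse_suffix]
    simp [bin, P]
  have h2 : (1 - mat N U) * (Matrix.of fun i j : Fin N => if P (i + 1) (j + 1) then 1 else 0) = 1 := by
    rw [sub_mul, one_mul, mat_mul U U_le (fun a j => if P a (j + 1) then 1 else 0) (by ext; simp [P, Nat.digits_eq_nil_iff_eq_zero])]
    ext i j
    have a := (P_rec (j + 1) (i + 1) (by omega)).1
    have b := (P_rec (j + 1) (U (i + 1)) (by omega)).2
    have c := U_lt (i + 1) (by omega)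
    simp only [Matrix.sub_apply, of_apply, one_apply, a, Fin.ext_iff, add_left_inj]
    by_cases e : (i : ℕ) = j
    · rw [if_pos (Or.inl e), if_neg (fun h => by have := b h; omega), if_pos e, sub_zero]
    · simp [e]
  have h3 : Commute (mat N U) (mat N (· / 2)) := by
    have a := mat_mul (N := N) U U_le (fun a j => if a / 2 = j + 1 then 1 else 0) (by ext; simp)
    have b := mat_mul (N := N) _ hD (fun a j => if U a = j + 1 then 1 else 0) (by ext; simp [U0])
    exact a.trans (by simp only [UD]; exact b.symm)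
  have h4 : mat N U ^ 2 ^ n = 0 := by
    rw [mat_pow U U_le]
    ext i j
    refine if_neg ?_
    rcases (Nat.succ_le_of_lt i.2).eq_or_lt with e | e
    · rw [show (i : ℕ) + 1 = 2 ^ 2 ^ n from hN ▸ e, hk, Function.iterate_succ_apply, U_pow,
        Function.iterate_fixed U0]; omega
    · rw [U_it _ _ (hN ▸ e)]; omega
  have h5 : mat N (· / 2) ^ 2 ^ n = φ (E N) := by
    have : ∀ k i : ℕ, (· / 2)^[k] i = i / 2 ^ k := fun k => by
      induction k with
      | zero => simp
      | succ k ih => intro i; rw [Function.iterate_succ_apply', ih, pow_succ, Nat.div_div_eq_div_mul]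
    rw [mat_pow _ hD]
    ext i j
    simp only [mat, of_apply, this, hN, φ, E, RingHom.mapMatrix_apply, map_apply, eq_intCast,
      Int.cast_ite, Int.cast_one, Int.cast_zero]
    congr 1
    rcases (Nat.succ_le_of_lt i.2).eq_or_lt with e | e
    · rw [show (i : ℕ) + 1 = N from e, Nat.div_self i.pos]; simp [eq_comm]
    · rw [Nat.div_eq_of_lt e]; simp; omega
  have hN1 : 1 < N := hN ▸ Nat.one_lt_two_pow (by omega)
  have : Nonempty (Fin N) := ⟨⟨0, by omega⟩⟩
  have h6 : ((1 - mat N U) * (1 - mat N (· / 2))) * φ (M N) = 1 := by rw [mul_assoc, h1, h2]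
  have h7 := Commute.mul_pow (show Commute _ _ from h6.trans (mul_eq_one_comm.1 h6).symm) (2 ^ n)
  rw [h6, one_pow, ((Commute.one_left _).sub_left ((Commute.one_right _).sub_right h3)).mul_pow,
    sub_pow_char_pow_of_commute 2 n (Commute.one_left _),
    sub_pow_char_pow_of_commute 2 n (Commute.one_left _), h4, h5, one_pow, sub_zero, one_mul] at h7
  have h8 : φ (E N) * φ (E N) = 0 := by
    ext i j
    simp only [mul_apply, φ, E, RingHom.mapMatrix_apply, map_apply, of_apply, Matrix.zero_apply]
    refine Finset.sum_eq_zero fun l _ => ?_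
    split_ifs <;> simp; omega
  have h9 : (1 + φ (E N)) * (1 - φ (E N)) = 1 := by simp [add_mul, mul_sub, h8]
  have := congrArg ((1 + φ (E N)) * ·) h7
  simp only [← mul_assoc, h9, mul_one, one_mul] at this
  exact this.symm

end Pool.Agent.Results.MP_b7336c_co.Power
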